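import Pool.Agent.helper68.GB.Spec

set_option autoImplicit false

namespace Pool.Agent.GB

open Pool.Agent.helper58.DC Pool.Agent.DI Pool.Agent.GR Pool.Agent.OB Pool.Agent.DR Pool.Agent.FI Pool.Agent.FI3 Pool.Agent.FI4 Pool.Agent.LE Pool.Agent.BR

/-- The sum of orthogonal idempotents is an idempotent. -/
theorem PWS_idem {G : Type} [Group G] [Finite G] (s : Finset (G → ℂ)) (h1 : ∀ f ∈ s, cv f f = f)
    (h2 : ∀ f ∈ s, ∀ f' ∈ s, f ≠ f' → cv f f' = 0) :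
    cv (fun x => ∑ f ∈ s, f x) (fun x => ∑ f ∈ s, f x) = fun x => ∑ f ∈ s, f x := by
  classical
  have := Fintype.ofFinite G
  funext g
  have e1 : cv (fun x => ∑ f ∈ s, f x) (fun x => ∑ f ∈ s, f x) g = ∑ f ∈ s, ∑ f' ∈ s, cv f f' g := by
    unfold cv
    rw [finsum_eq_sum_of_fintype]
    have e2 : ∀ x : G, (∑ f ∈ s, f x) * (∑ f ∈ s, f (x⁻¹ * g)) = ∑ f ∈ s, ∑ f' ∈ s, f x * f' (x⁻¹ * g) :=
      fun x => Finset.sum_mul_sum _ _ _ _
    rw [Finset.sum_congr rfl fun x _ => e2 x, Finset.sum_comm]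
    refine Finset.sum_congr rfl fun f _ => ?_
    rw [Finset.sum_comm]
    refine Finset.sum_congr rfl fun f' _ => ?_
    rw [finsum_eq_sum_of_fintype]
  rw [e1]
  refine Finset.sum_congr rfl fun f hf => ?_
  rw [Finset.sum_eq_single_of_mem f hf fun f' hf' hne => by rw [h2 f hf f' hf' (Ne.symm hne)]; rfl, h1 f hf]

theorem PWS (hNIS : NIS_stmt) (hDIC : DIC_stmt) (hREP : REP_stmt) (hCVF : CVF_stmt) (hPRD : PRD_stmt) : PWS_stmt := by
  classical
  intro p M hS G _ _ Q S e hQ hSp hQS hSn hinv r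
  obtain ⟨hfin, -, -, hbb, -⟩ := hREP p M hS G (cz S)
  obtain ⟨-, -, horth, -, -⟩ := hDIC p M hS G (cz S)
  have hsub : {f : G → ℂ | Nin p M Q e S f} ⊆ BB M (cz S) := fun f hf => hf.r.bb
  have hF : {f : G → ℂ | Nin p M Q e S f}.Finite := hfin.subset hsub
  have hmem : ∀ f ∈ hF.toFinset, f ∈ BB M (cz S) := fun f hf => hsub (hF.mem_toFinset.1 hf)
  have hb : ∀ x, ∑ᶠ f ∈ {f : G → ℂ | Nin p M Q e S f}, f x = ∑ f ∈ hF.toFinset, f x := fun x =>
    finsum_mem_eq_finite_toFinset_sum _ hF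
  have hnis := hNIS p M hS G Q S e hQ hSp hQS hSn hinv
  simp only [hb] at hnis ⊢
  obtain ⟨-, -, -, -, -, -, hcom, -⟩ := hCVF G
  have hCFb : CF (cz S) (fun x => ∑ f ∈ hF.toFinset, f x) := by
    refine ⟨fun l hl x => ?_, fun x hx => ?_⟩
    · refine Finset.sum_congr rfl fun f hf => ?_
      exact (hbb f (hmem f hf)).1.1 l hl x
    · refine Finset.sum_eq_zero fun f hf => ?_
      exact (hbb f (hmem f hf)).2.1 x hx
  have ha0 : ∀ x, x ∉ cz S → rsk (cz S) e x = 0 := by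
    intro x hx
    unfold rsk
    rw [if_neg hx]
  exact PWL hPRD hS (rsk (cz S) e) (fun x => ∑ f ∈ hF.toFinset, f x)
    (fun x => IntAt.sum hS _ fun f hf => (hbb f (hmem f hf)).2.2.1 x)
    (PWS_idem _ (fun f hf => (hbb f (hmem f hf)).2.2.2) fun f hf f' hf' hne => horth f (hmem f hf) f' (hmem f' hf') hne)
    (hcom (cz S) _ _ hCFb ha0).symm hnis r

end Pool.Agent.GB
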